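import Pool.Agent.VTP.StmtsT
import Pool.Agent.Helper65_ZOL.UNK
import Pool.Agent.Helper24_ZOL.MGAU
import Pool.Agent.Helper11_ZOL.MPla

/-!
# VTP row TRM: removal of two opposite crossings of the twist region
-/

set_option autoImplicit false

namespace Pool.Agent.VTP.H81

open Finset Pool.Agent.ZOL

theorem seg_append (ov : ℕ → Bool) (p q : List ℕ) : ∀ s : Bool, Even p.length →
    seg ov s (p ++ q) = seg ov s p ++ seg ov s q := by
  induction p using List.twoStepInduction with
  | nil => intro s _; rfl
  | singleton a => intro s h; simp at h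
  | cons_cons a b p ih _ =>
    intro s h
    have h1 : Even p.length := by
      simp only [List.length_cons] at h
      rcases h with ⟨k, hk⟩
      exact ⟨k - 1, by omega⟩
    show (a, s, ov a) :: (b, !s, ov b) :: seg ov (!(!s)) (p ++ q) =
      ((a, s, ov a) :: (b, !s, ov b) :: seg ov (!(!s)) p) ++ seg ov s q
    rw [Bool.not_not, ih s h1]
    rfl

theorem relab_append (σ : ℕ → ℕ) (u v : Word) : relab σ (u ++ v) = relab σ u ++ relab σ v :=
  List.map_append

theorem trm (tgg : TggStmt) (tpg : TpgStmt) : TrmStmt := by
  intro w p l a b ov hw hp hnd h0 h1 hpe hle hab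
  have hsub : (p ++ l).Sublist (p ++ [a, b] ++ l) := by
    rw [List.append_assoc]
    exact (List.Sublist.refl p).append (List.sublist_append_right [a, b] l)
  have hnd' : (p ++ l).Nodup := hnd.sublist hsub
  have h0' : 0 ∉ p ++ l := fun h => h0 (hsub.subset h)
  have h1' : 1 ∉ p ++ l := fun h => h1 (hsub.subset h)
  have he' : Even (p ++ l).length := by
    rw [List.length_append]
    exact hpe.add hle
  have he : Even (p ++ [a, b] ++ l).length := by
    rw [List.length_append, List.length_append]
    exact (hpe.add (⟨1, rfl⟩ : Even [a, b].length)).add hle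
  have hdia : ∀ ls : List ℕ, ls.Nodup → 0 ∉ ls → 1 ∉ ls → Even ls.length →
      IsGauss (mul w (tg ls ov)) ∧ Planar (shadow (mul w (tg ls ov))) := by
    intro ls g1 g2 g3 g4
    have k1 := tgg.1 ls ov g1 g2 g3
    have k2 := tpg.1 ls ov g1 g2 g3 g4
    exact ⟨H24.mgau w _ hw k1, H11.mpla w _ hw k1 hp k2⟩
  refine H65.kn_eq (hdia _ hnd h0 h1 he) (hdia _ hnd' h0' h1' he') ?_
  obtain ⟨o, ho⟩ : ∃ o, ov a = o := ⟨_, rfl⟩
  have ho' : ov b = o := hab ▸ ho
  have e1 : seg ov true (p ++ [a, b] ++ l) =
      seg ov true p ++ [(a, true, o), (b, false, o)] ++ seg ov true l := by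
    rw [seg_append ov (p ++ [a, b]) l true (by
      rw [List.length_append]
      exact hpe.add (⟨1, rfl⟩ : Even [a, b].length)), seg_append ov p [a, b] true hpe]
    show seg ov true p ++ [(a, true, ov a), (b, false, ov b)] ++ seg ov true l = _
    rw [ho, ho']
  have e2 : seg ov true (p ++ l) = seg ov true p ++ seg ov true l := seg_append ov p l true hpe
  have h := Step.r2b
    (relab (fun n => 2 * n) w ++ relab (fun n => 2 * n + 1)
      ([(0, false, ov 0), (1, true, ov 1)] ++ seg ov true p))
    (relab (fun n => 2 * n + 1) (seg ov true l ++ [(1, false, !ov 1), (0, true, !ov 0)] ++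
      (seg ov true l).reverse.map bar))
    (relab (fun n => 2 * n + 1) ((seg ov true p).reverse.map bar))
    (2 * a + 1) (2 * b + 1) true o
  have f1 : mul w (tg (p ++ [a, b] ++ l) ov) =
      relab (fun n => 2 * n) w ++ relab (fun n => 2 * n + 1)
      ([(0, false, ov 0), (1, true, ov 1)] ++ seg ov true p) ++
      [(2 * a + 1, true, o), (2 * b + 1, !true, o)] ++
      relab (fun n => 2 * n + 1) (seg ov true l ++ [(1, false, !ov 1), (0, true, !ov 0)] ++
        (seg ov true l).reverse.map bar) ++
      [(2 * b + 1, true, !o), (2 * a + 1, !true, !o)] ++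
      relab (fun n => 2 * n + 1) ((seg ov true p).reverse.map bar) := by
    unfold mul tg
    rw [e1]
    simp only [List.reverse_append, List.map_append, relab_append, List.append_assoc]
    rfl
  have f2 : mul w (tg (p ++ l) ov) =
      relab (fun n => 2 * n) w ++ relab (fun n => 2 * n + 1)
      ([(0, false, ov 0), (1, true, ov 1)] ++ seg ov true p) ++
      relab (fun n => 2 * n + 1) (seg ov true l ++ [(1, false, !ov 1), (0, true, !ov 0)] ++
        (seg ov true l).reverse.map bar) ++
      relab (fun n => 2 * n + 1) ((seg ov true p).reverse.map bar) := by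
    unfold mul tg
    rw [e2]
    simp only [List.reverse_append, List.map_append, relab_append, List.append_assoc]
  rw [f1, f2]
  exact h

end Pool.Agent.VTP.H81
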